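import Pool.Agent.H71.FX.Targets

/-!
# Row AA of fxm_modules: the prefix of two universal quantifiers
-/

set_option autoImplicit false

namespace Pool.Agent.H86.FX

open Pool.Agent.H71.FX Pool.Agent.H71.PF Pool.Agent.H8.PL

theorem pf_AA (rc : T_RC) (mr : T_MR) (bc : T_BC) (rs : T_RS) (en : T_EN) (d1 : T_D1) (d2 : T_D2)
    (d5 : T_D5) (dk : T_DK) (tp : T_TP) : T_AA := by
  intro Q _ U Hh Vv
  obtain ⟨N, e, he, heN⟩ : ∃ (N : ℕ) (e : Q → ℕ), Function.Injective e ∧ ∀ q, e q < N :=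
    ⟨Nat.card Q, fun q => (Finite.equivFin Q q : ℕ), fun a b h =>
      (Finite.equivFin Q).injective (Fin.ext h), fun q => (Finite.equivFin Q q).2⟩
  have hC : DB (fun _ f g x y => (Bk (15 + N) f g x ∧ (f x = x → (dcd e f g).G1 x ∧
      (dcd e f g).G2 x ∧ (dcd e f g).G3 x ∧ (dcd e f g).G4 x ∧ (dcd e f g).G5 U Hh Vv x)) ∧
      (f x = x → f y = y → (dcd e f g).cr x → (dcd e f g).cr y → x = y)) := by
    have hB := (dk (15 + N) false).1
    have hfx := (dk (15 + N) false).2.1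
    have hfy := (dk (15 + N) true).2.1
    have heq := (dk (15 + N) false).2.2.2
    have h1 := d1 Q e false
    obtain ⟨h2, h3, h4, h6⟩ := d2 Q e false
    have h7 := (d2 Q e true).2.2.2
    have h5 := d5 Q e U Hh Vv false
    exact (hB.and (hfx.imp (h1.and (h2.and (h3.and (h4.and h5)))))).and
      (hfx.imp (hfy.imp (h6.imp (h7.imp heq))))
  obtain ⟨φ, hφ⟩ := hC
  refine ⟨φ, 15 + N, by omega, ?_, ?_⟩
  · rintro n hn ⟨f, g, h⟩
    have h' := fun x y => (hφ (Fin n) f g x y).1 (h x y)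
    have hA : ∀ x, A1 (15 + N) e U Hh Vv f g x := fun x => (h' x x).1
    obtain ⟨m, hm, hcr⟩ := rs (Fin n) Q f g (15 + N) e U Hh Vv (by omega) hA
    obtain ⟨hcard, hne⟩ := bc (Fin n) f g (15 + N) inferInstance (by omega) fun x => (hA x).1
    obtain ⟨W, H, hW, hH, hWH, t, ht⟩ := rc {x // f x = x} Q m U Hh Vv (hne ⟨⟨0, hn⟩⟩)
      inferInstance hm (fun z z' hz hz' => Subtype.ext
        ((h' z.1 z'.1).2 z.2 z'.2 ((hcr z).1 hz) ((hcr z').1 hz')))
    refine ⟨W, H, hW, hH, ?_, t, ht⟩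
    rw [← hWH, ← hcard, Nat.card_eq_fintype_card, Fintype.card_fin]
  · intro W H t hW hH hHW hWH ht
    obtain ⟨hok, huni⟩ := mr Q U Hh Vv W H t hW hH hHW hWH ht
    obtain ⟨f, g, hA, hcr, hfix, hg, -⟩ := en (Fin W × Fin H) Q (MR W H t) e N U Hh Vv he heN hok
    have hcard : Fintype.card ((Fin W × Fin H) × Fin (15 + N)) = (15 + N) * (W * H) := by
      simp only [Fintype.card_prod, Fintype.card_fin]
      ring
    obtain ⟨E, -⟩ : ∃ E : (Fin W × Fin H) × Fin (15 + N) ≃ Fin ((15 + N) * (W * H)), True :=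
      ⟨Fintype.equivFinOfCardEq hcard, trivial⟩
    refine ⟨fun b => E (f (E.symm b)), fun b => E (g (E.symm b)), fun x y => ?_, fun x hx => ?_⟩
    · obtain ⟨x, rfl⟩ := E.surjective x
      obtain ⟨y, rfl⟩ := E.surjective y
      rw [tp, hφ]
      refine ⟨hA x, fun h1 h2 h3 h4 => ?_⟩
      exact hfix x y h1 h2 (huni _ _ ((hcr x h1).1 h3) ((hcr y h2).1 h4))
    · obtain ⟨x, rfl⟩ := E.surjective x
      beta_reduce at hx
      rw [E.symm_apply_apply] at hx
      exact hg x (E.injective hx)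

end Pool.Agent.H86.FX
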