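import Pool.Agent.H71.FX.Targets2

/-!
# Row PP of fxm_modules: the period
-/

set_option autoImplicit false

namespace Pool.Agent.H86.FX

open Pool.Agent.H71.FX Pool.Agent.H71.PF

theorem pf_PP (nf : T_NF) (ng : T_NG) (vw : T_VW) (cl : T_CL) (ch : T_CH) (pr : T_PR)
    (ac : T_AC) : T_PP := by
  intro i0 a b r φ hV hVoc
  obtain ⟨D, J, hvw⟩ := vw i0 (a + 1 + b) r φ hV hVoc
  obtain ⟨P, hP⟩ : ∃ P : Pr, P = ⟨a, a + 1 + b, D, r, J⟩ := ⟨_, rfl⟩
  have hPa : P.a = a := by rw [hP]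
  have ha : P.a < P.K := by
    rw [hP]
    show a < a + 1 + b
    omega
  have hstep : ∀ (α β : Type) (m : Sk α) (m' : Sk β), Step P m m' →
      (∀ x, φ.Sat (m.F x) m.R (m.w x)) → ∀ x', φ.Sat (m'.F x') m'.R (m'.w x') := by
    intro α β m m' hs h x'
    obtain ⟨x, hx⟩ := hs.2 x'
    rw [hP] at hx
    exact (hvw a α β m m' x x' hx).1 (h x)
  obtain ⟨L, hL⟩ := pr P
  obtain ⟨N0, hN0⟩ := ch P (L + 6 * P.B + 1) ha (by omega)
  have hfin : ∀ (β : Type) [Finite β] (m : Sk β), m.Wf P.a → 0 < Nat.card β →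
      (∀ x, φ.Sat (m.F x) m.R (m.w x)) →
      Nat.card β ∈ Spec (List.replicate a false ++ true :: List.replicate b false) φ := by
    intro β _ m hm hc hs
    have : Nonempty β := (Nat.card_pos_iff.1 hc).1
    exact ng i0 a b r φ hV hVoc β m (hPa ▸ hm) hs
  refine ⟨(L + 6 * P.B + 1).factorial, max N0 1, Nat.factorial_pos _, fun n hn hmem => ?_⟩
  obtain ⟨hn0, m, hwf, hsat⟩ := nf i0 a b r φ hV hVoc n hmem
  rw [← hPa] at hwf
  have hcn : Nat.card (Fin n) = n := by rw [Nat.card_eq_fintype_card, Fintype.card_fin]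
  rcases hN0 (Fin n) m hwf (by rw [hcn]; exact (le_max_left _ _).trans hn) with
    ⟨K0, hfree, hcard⟩ | ⟨e, he⟩
  · have hpos : 0 < K0.ncard := (Set.ncard_pos (Set.toFinite K0)).2 hfree.1
    obtain ⟨κ, hκ⟩ := Nat.dvd_factorial hpos hcard
    obtain ⟨β, hβ, m', hc, hs⟩ := cl P (Fin n) m ha hwf K0 hfree κ
    have h1 : Nat.card β = n + (L + 6 * P.B + 1).factorial := by
      rw [hc, hcn, hκ, mul_comm κ]
    rw [← h1]
    exact hfin β m' hs.1 (by omega) (hstep _ _ m m' hs hsat)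
  · obtain ⟨p, q, hpq, hqL, hal⟩ := hL (Fin n) m e
    obtain ⟨β, hβ, m', hc, hs, K0, hfree, hK0⟩ := ac P (Fin n) m e _ p q ha hwf he hpq
      (by omega) hal
    have hpos : 0 < K0.ncard := by omega
    obtain ⟨κ, hκ⟩ := Nat.dvd_factorial hpos (by omega : K0.ncard ≤ L + 6 * P.B + 1)
    have hκ0 : κ ≠ 0 := by
      intro h
      rw [h, mul_zero] at hκ
      exact (Nat.factorial_pos _).ne' hκ
    obtain ⟨κ', rfl⟩ := Nat.exists_eq_succ_of_ne_zero hκ0
    obtain ⟨β', hβ', m'', hc', hs'⟩ := cl P β m' ha hs.1 K0 hfree κ'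
    have h1 : Nat.card β' = n + (L + 6 * P.B + 1).factorial := by
      rw [hc', hc, hcn, hκ, ← hK0, Nat.succ_eq_add_one]
      ring
    rw [← h1]
    exact hfin β' m'' hs'.1 (by omega) (hstep _ _ m' m'' hs' (hstep _ _ m m' hs hsat))

end Pool.Agent.H86.FX
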