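import Pool.Agent.H71.FX.Targets2

/-!
# Row RM of fxm_modules: a triangle with one colour
-/

set_option autoImplicit false

namespace Pool.Agent.H86.FX

open Pool.Agent.H71.FX Pool.Agent.H71.PF

theorem ram (c : ℕ) : ∃ N : ℕ, ∀ (C A : Finset ℕ) (col : ℕ → ℕ → ℕ), C.card = c →
    (∀ i ∈ A, ∀ j ∈ A, i < j → col i j ∈ C) → N ≤ A.card →
    ∃ i ∈ A, ∃ j ∈ A, ∃ k ∈ A, i < j ∧ j < k ∧ col i j = col i k ∧ col i k = col j k := by
  induction c with
  | zero =>
    refine ⟨2, fun C A col hC hcol hA => ?_⟩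
    obtain ⟨i, hi, j, hj, hij⟩ := Finset.one_lt_card.1 (by omega : 1 < A.card)
    rw [Finset.card_eq_zero] at hC
    subst hC
    rcases lt_or_gt_of_ne hij with h | h
    · exact absurd (hcol i hi j hj h) (Finset.notMem_empty _)
    · exact absurd (hcol j hj i hi h) (Finset.notMem_empty _)
  | succ c ih =>
    obtain ⟨N, hN⟩ := ih
    refine ⟨(c + 1) * N + 2, fun C A col hC hcol hA => ?_⟩
    have hne : A.Nonempty := Finset.card_pos.1 (by omega)
    obtain ⟨i, hi⟩ : ∃ i, i = A.min' hne := ⟨_, rfl⟩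
    have hiA : i ∈ A := hi ▸ A.min'_mem hne
    have hlt : ∀ j ∈ A.erase i, i < j := by
      intro j hj
      rw [Finset.mem_erase] at hj
      exact lt_of_le_of_ne (hi ▸ A.min'_le j hj.2) (Ne.symm hj.1)
    have hcard : C.card * N < (A.erase i).card := by
      rw [Finset.card_erase_of_mem hiA, hC]
      omega
    obtain ⟨x, hx, hxc⟩ := Finset.exists_lt_card_fiber_of_mul_lt_card_of_maps_to
      (fun j hj => hcol i hiA j (Finset.mem_of_mem_erase hj) (hlt j hj)) hcard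
    obtain ⟨B, hB⟩ : ∃ B : Finset ℕ, B = (A.erase i).filter fun j => col i j = x := ⟨_, rfl⟩
    rw [← hB] at hxc
    have hBm : ∀ j ∈ B, j ∈ A ∧ i < j ∧ col i j = x := by
      intro j hj
      rw [hB, Finset.mem_filter] at hj
      exact ⟨Finset.mem_of_mem_erase hj.1, hlt j hj.1, hj.2⟩
    by_cases hex : ∃ j ∈ B, ∃ k ∈ B, j < k ∧ col j k = x
    · obtain ⟨j, hj, k, hk, hjk, hc⟩ := hex
      obtain ⟨h1, h2, h3⟩ := hBm j hj
      obtain ⟨h4, h5, h6⟩ := hBm k hk
      exact ⟨i, hiA, j, h1, k, h4, h2, hjk, h3.trans h6.symm, h6.trans hc.symm⟩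
    · obtain ⟨j, hj, k, hk, l, hl, h⟩ := hN (C.erase x) B col
        (by rw [Finset.card_erase_of_mem hx, hC]; rfl)
        (fun j hj k hk hjk => Finset.mem_erase.2
          ⟨fun h => hex ⟨j, hj, k, hk, hjk, h⟩, hcol j (hBm j hj).1 k (hBm k hk).1 hjk⟩)
        hxc.le
      exact ⟨j, (hBm j hj).1, k, (hBm k hk).1, l, (hBm l hl).1, h⟩

theorem pf_RM : T_RM := by
  intro c
  obtain ⟨N, hN⟩ := ram c
  refine ⟨N, fun col hcol => ?_⟩
  obtain ⟨i, hi, j, hj, k, hk, h1, h2, h3, h4⟩ := hN (Finset.range c) (Finset.range N) col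
    (Finset.card_range c)
    (fun i _ j hj hij => Finset.mem_range.2 (hcol i j hij (Finset.mem_range.1 hj)))
    (Finset.card_range N).ge
  exact ⟨i, j, k, h1, h2, Finset.mem_range.1 hk, h3, h4⟩

end Pool.Agent.H86.FX
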