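import Pool.Agent.H71.FX.Targets

/-!
# Row TP of fxm_modules: transport
-/

set_option autoImplicit false

namespace Pool.Agent.H86.FX

open Pool.Agent.H71.FX Pool.Agent.H71.PF Pool.Agent.H8.PL

theorem wv_conj {α β : Type} (E : α ≃ β) (f g : α → α) (w : List Bool) (z : α) :
    wv (fun b => E (f (E.symm b))) (fun b => E (g (E.symm b))) w (E z) = E (wv f g w z) := by
  induction w with
  | nil => rfl
  | cons a w ih =>
    cases a with
    | true =>
      show E (g (E.symm (wv _ _ w (E z)))) = E (g (wv f g w z))
      rw [ih, E.symm_apply_apply]
    | false =>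
      show E (f (E.symm (wv _ _ w (E z)))) = E (f (wv f g w z))
      rw [ih, E.symm_apply_apply]

theorem pf_TP : T_TP := by
  intro α β E φ f g x y
  induction φ with
  | eq w w' a b =>
    show wv _ _ w (bif a then E y else E x) = wv _ _ w' (bif b then E y else E x) ↔
      wv f g w (bif a then y else x) = wv f g w' (bif b then y else x)
    have h : ∀ a : Bool, (bif a then E y else E x) = E (bif a then y else x) := by
      intro a
      cases a <;> rfl
    rw [h a, h b, wv_conj, wv_conj, E.injective.eq_iff]
  | neg φ ih => exact not_congr ih
  | and φ ψ h1 h2 => exact and_congr h1 h2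

end Pool.Agent.H86.FX
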